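import Pool.Agent.H83.SigQ

set_option autoImplicit false

namespace Pool.Agent.Results.MP_d3ad9a_lc.Diamond

open Pool.Agent.H83.SigQ

theorem result : Pool.Agent.H83.SigQ.Diamond SQ := both.2

end Pool.Agent.Results.MP_d3ad9a_lc.Diamond
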